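import Pool.Agent.X324.CG.Norm

set_option autoImplicit false

/-!
# The relative nef cone conjecture for pairs: reduction to the factors without 1-forms

`A = V / Λ` is an abelian variety and `F = ∏ F i` a product of normal projective `ℚ`-factorial varieties
with free class groups; the Cox ring `R = ⨁ H⁰(F, O_F(β))` need not be finitely generated. Let
`X = (A × F) / G`, where a finite group `G` acts on both factors; the action may have fixed points and
fixed divisors. Let `X → Z` be a fibration given by a linear map `π : V → W`, where `Z = W / Γ'` is a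
quotient of an abelian variety, and let `Δ` be an effective divisor on `X` with real coefficients such
that `K_X + Δ` is numerically trivial over `Z`. (Only the curves of `X` which come from curves
`C × {point}` in `A × F` are needed for this hypothesis.) Let `𝒮` be a group of automorphisms of `F`,
which contains those given by `G`, such that the components of the pullback of `Δ` to `A × F` are
preserved by a subgroup of finite index of `𝒮`. The theorem says: if the cone conjecture holds for `𝒮`
and the varieties `F i`, and only finitely many elements of `𝒮` act trivially on `Cl(F)`, then the nef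
cone conjecture holds for `(X/Z, Δ)`: the cone `A^e(X/Z)` of nef effective classes has a rational
polyhedral fundamental domain for the action of `Aut(X/Z, Δ)`.

The proof: `N^1(X/Z)` is the product of a space of hermitian forms on `E = ker π` and of the space of the
`G`-invariant classes of `F`. The first factor is treated by reduction theory; units of an order, in a
subgroup of finite index, extend to affine transformations which preserve `Δ`. For the second, a
Dirichlet domain for `𝒮` acting on `Nef^e(F)` is constructed; only finitely many elements of the group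
fix an interior point of it, therefore the translates of the domain which meet the interior of the cone
of invariant classes form finitely many orbits under the elements of a subgroup of finite index of `𝒮`
which commute with `G` (modulo the torus).

`Cl`, `Semistable`, `SemiampleF`, `Induces`, `Scal`, `Elt`, `Grp`, `base`, `IsQuotient`, `Sheaf`,
`EffDiv`, `NumTrivial`, `N1`, `integral`, `effective`, `semiample`, `nefCone` and `effCone` are defined in
`Pool.Agent.X324.CF.Defs`; `IsCoxRing`, `IsProduct`, `nefF`, `effF`, `HasCover`, `FiniteKernel`, `IsAut`,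
`OnFactor`, `IsPullbackX` and `FixedX` in `Pool.Agent.X324.CG.Defs`; `NormX` in
`Pool.Agent.X324.CG.NormDefs`; `IsTorusQuotient` in
`Pool.Agent.W594.SYZ.Defs2`; `IsPositiveForm` in `Pool.Agent.W594.SYZ.TQDefs`; `IsFibration` in
`Pool.Agent.TH735.AQ.Defs`; `AffGrp`, `LinGrp`, `Preserves`, `IsFundDomain` and `cone` in
`Pool.Agent.Y167`.
-/

namespace Pool.Agent.Results.MP_20d318_ag.ReductionPairs

open Pool.Agent.W594.SYZ2 Pool.Agent.TH735.AQ Pool.Agent.X324.CF
open Pool.Agent.X324.CG (IsCoxRing IsProduct nefF effF HasCover FiniteKernel IsAut OnFactor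
  NormX IsPullbackX FixedX)
open Pool.Agent.Y167 (AffGrp cone)
open Pool.Agent.Y167.CC (LinGrp Preserves IsFundDomain)

/-- The group `𝒮` of automorphisms of `F = ∏ F i` contains those which are given by `G`; for each `i`
the cone of nef effective classes of `F i` is covered by the translates of a rational polyhedral cone
under the elements of `𝒮` which act only on `F i`; only finitely many elements of `𝒮` act trivially on
`Cl(F)`; and the components of the pullback of `Δ` to `A × F` are preserved by a subgroup of finite index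
of `𝒮`. -/
structure ConeConjecture {V R κ : Type*} [NormedAddCommGroup V] [NormedSpace ℂ V] [CommRing R]
    [Algebra ℂ R] {ρ : ℕ} {𝒜 : Cl ρ → Submodule ℂ R} (u : Cl ρ) {Γ : Grp V R} (c : Fin ρ → κ)
    {ι : Type*} (Δ : EffDiv 𝒜 Γ ι) (𝒮 : Subgroup (R ≃ₐ[ℂ] R)) : Prop where
  aut : ∀ φ ∈ 𝒮, IsAut 𝒜 u φ
  gal : ∀ γ ∈ Γ, γ.2 ∈ 𝒮
  cover : ∀ i, HasCover 𝒜 (nefF 𝒜 u c i ∩ effF 𝒜 c i) {φ | φ ∈ 𝒮 ∧ OnFactor 𝒜 c i φ}
  kernel : FiniteKernel 𝒜 {φ | φ ∈ 𝒮}
  comp : ∃ T : Set (R ≃ₐ[ℂ] R), T.Finite ∧ ∀ φ ∈ 𝒮, ∃ h ∈ T, FixedX Δ (1, h⁻¹ * φ)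

/-- `𝒢` is a group of linear automorphisms of `N^1(X/Z)` which preserves the integral classes and the
cone of nef effective classes, and which contains the pullbacks by all automorphisms of `X` over `Z`
induced by pairs `(f, φ)` of an affine transformation of `V` over `W` and an element of `𝒮` which map the
components of `Δ` to themselves. The image of `Aut(X/Z, Δ)` has these properties. -/
structure IsAutGroup {V W E R : Type*} [NormedAddCommGroup V] [NormedSpace ℂ V]
    [NormedAddCommGroup W] [NormedSpace ℂ W] [NormedAddCommGroup E] [NormedSpace ℂ E]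
    [CommRing R] [Algebra ℂ R] {ρ : ℕ} {𝒜 : Cl ρ → Submodule ℂ R} (u : Cl ρ)
    {Γ : Grp V R} (π : V →ₗ[ℂ] W) {j : E →ₗ[ℂ] V} {ι : Type*}
    (Δ : EffDiv 𝒜 Γ ι) (𝒮 : Subgroup (R ≃ₐ[ℂ] R)) (𝒢 : LinGrp (N1 𝒜 Γ j)) : Prop where
  int : Preserves 𝒢 (integral 𝒜 Γ j)
  nef_eff : Preserves 𝒢 (nefCone 𝒜 Γ j u ∩ effCone 𝒜 Γ j)
  aut : ∀ a : Elt V R, NormX 𝒜 Γ a → a.2 ∈ 𝒮 → (∀ v, π (a.1 v) = π v) → FixedX Δ a →
    ∀ g, IsPullbackX a g → g ∈ 𝒢

/-- Let `F` be the product of varieties `F i`, `i ∈ κ`. Let `X = (V × F) / Γ` be a projective quotient,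
`X → Z = W / Γ'` a fibration and `Δ` an effective divisor with real coefficients on `X` such that
`K_X + Δ` is numerically trivial over `Z`. Here `E` is the kernel of `π`, embedded by `j`. Let `𝒮` be a
group of automorphisms of `F` for which the cone conjecture holds. There is a finite set `S` of integral
classes such that the cone spanned by `S` consists of nef effective classes and is a fundamental domain
for the action of `𝒢` on the cone `A^e(X/Z)` of nef effective classes. -/
theorem result {V W E R κ : Type*} [NormedAddCommGroup V] [NormedSpace ℂ V] [FiniteDimensional ℂ V]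
    [NormedAddCommGroup W] [NormedSpace ℂ W] [FiniteDimensional ℂ W]
    [NormedAddCommGroup E] [NormedSpace ℂ E] [FiniteDimensional ℂ E]
    [CommRing R] [IsDomain R] [Algebra ℂ R] [DecidableEq κ] [Fintype κ] {ρ : ℕ}
    (𝒜 : Cl ρ → Submodule ℂ R) [GradedAlgebra 𝒜] (u : Cl ρ) (hF : IsCoxRing 𝒜 u)
    (c : Fin ρ → κ) (hprod : IsProduct 𝒜 c) (Γ : Grp V R) (hX : IsQuotient 𝒜 u Γ)
    (hproj : ∃ (L : Sheaf 𝒜 Γ) (H : V → V → ℂ), L.IsChern H ∧ IsPositiveForm H)
    (Γ' : AffGrp W) (π : V →ₗ[ℂ] W) (hπ : IsFibration (base Γ) Γ' π)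
    (j : E →ₗ[ℂ] V) (hj : Function.Injective j) (hjr : LinearMap.range j = LinearMap.ker π)
    {ι : Type*} [Fintype ι] (Δ : EffDiv 𝒜 Γ ι) (hΔ : NumTrivial Δ j)
    (𝒮 : Subgroup (R ≃ₐ[ℂ] R)) (h𝒮 : ConeConjecture u c Δ 𝒮)
    (𝒢 : LinGrp (N1 𝒜 Γ j)) (h𝒢 : IsAutGroup u π Δ 𝒮 𝒢) :
    ∃ S : Finset (N1 𝒜 Γ j), ↑S ⊆ integral 𝒜 Γ j ∧
      cone S ⊆ nefCone 𝒜 Γ j u ∩ effCone 𝒜 Γ j ∧
      IsFundDomain 𝒢 (nefCone 𝒜 Γ j u ∩ effCone 𝒜 Γ j) (cone S) := by
  obtain ⟨H₀, Rl⟩ := rel_emb hX hproj hπ hj hjr
  obtain ⟨d, D, S₀, hS₀, hcov⟩ := Pool.Agent.X324.CG.cover_nef (𝒮 := 𝒮) hF hprod h𝒮.aut h𝒮.cover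
  obtain ⟨T, hT, hfi⟩ := h𝒮.comp
  exact (Pool.Agent.X324.CG.main4 D hX (by rintro _ ⟨γ, hγ, rfl⟩; exact h𝒮.gal γ hγ)
    (𝒮₁ := Pool.Agent.X324.CG.fixGrp Δ) hT hfi hS₀ hcov h𝒮.kernel
    Rl (hF.good_nef hX D.base) (FixedX Δ)
    (fun m g hg f hf => Pool.Agent.X324.CG.fixedX_aff (fixed_of_good hX Rl Δ hΔ hg hf))
    (fun _ _ h => h)
    𝒢 h𝒢.int h𝒢.nef_eff (fun a ha ha2 hf2 hfx g hg => h𝒢.aut a (ha.norm (h𝒮.aut _ ha2).1) ha2 (fun v => by
      obtain ⟨e, he⟩ := hf2 v
      have h5 : π (j e) = 0 := by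
        have h6 : j e ∈ LinearMap.ker π := hjr ▸ LinearMap.mem_range_self j e
        exact h6
      rw [he, map_add, h5, add_zero]) hfx g hg)).1

end Pool.Agent.Results.MP_20d318_ag.ReductionPairs
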